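import Pool.Agent.H.MP_99184a_co.B

namespace Pool.Agent.H.MP_6870a6_co

open Polynomial LaurentPolynomial Pool.Agent.H.MP_99184a_co

theorem topc {f g : R} {a b c d : ℤ} (hf : Iv f a b) (hg : Iv g c d) :
    (f * g).coeff (b + d) = f.coeff b * g.coeff d := by
  rw [AddMonoidAlgebra.coeff_mul_apply_left, Finsupp.sum, Finset.sum_eq_single b]
  · congr 2; ring
  · intro i _ hi
    by_cases h : i < b
    · rw [(hg.2 _).2 (Or.inr (by omega)), mul_zero]
    · rw [(hf.2 _).2 (Or.inr (by omega)), zero_mul]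
  · intro h
    simp only [Finsupp.mem_support_iff, not_not] at h
    rw [h, zero_mul]

theorem botc {f g : R} {a b c d : ℤ} (hf : Iv f a b) (hg : Iv g c d) :
    (f * g).coeff (a + c) = f.coeff a * g.coeff c := by
  have := topc hf.inv hg.inv
  rw [← map_mul] at this
  simp only [invert_apply, neg_add_rev, neg_neg] at this
  rwa [add_comm] at this

theorem coeff_T_mul (n j : ℤ) (f : R) : (T n * f).coeff j = f.coeff (j - n) := by
  rw [T, AddMonoidAlgebra.coeff_single_mul_apply, one_mul]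
  congr 1; ring

noncomputable def lam (p : ℤ[X]) : ℤ := p.coeff 0 * p.coeff p.natDegree

theorem sym_top {p : ℤ[X]} (h : PosP p) :
    (toLaurent p * invert (toLaurent p)).coeff p.natDegree = lam p := by
  have := topc h.iv h.iv.inv
  simp only [neg_zero, add_zero, invert_apply] at this
  rw [this, coeff_toL, lam, mul_comm]
  congr 1
  exact coeff_toL p 0

theorem sym_bot {p : ℤ[X]} (h : PosP p) :
    (toLaurent p * invert (toLaurent p)).coeff (-p.natDegree) = lam p := by
  have := botc h.iv h.iv.inv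
  simp only [zero_add, invert_apply, neg_neg] at this
  rw [this, coeff_toL, lam]
  congr 1
  exact coeff_toL p 0

theorem mu_lam {s : ℤ} (hs : s = 1 ∨ s = -1) {x c r d : ℤ[X]} (hx : PosP x)
    (hc : PosP c) (hr : PosP r) (hd : PosP d) (dx : x.natDegree < c.natDegree)
    (h : Mu s x c r d) : d.natDegree + r.natDegree = 2 * c.natDegree ∧
      lam d * lam r = lam c * (lam c + if x.natDegree + 1 = c.natDegree then lam x else 0) := by
  have i1 := (iv_T c.natDegree).mul (((iv_T s).mul (hx.iv.mul hx.iv.inv)).add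
    (hc.iv.mul hc.iv.inv) (by omega) (by omega))
  have i0 := (iv_T r.natDegree).mul hr.iv.inv
  have i3 := hd.iv.mul i0
  have e0 := h
  rw [Mu, toLaurent_reverse, mul_comm _ (T _)] at e0
  have b1 := botc hd.iv i0
  have t1 := topc hd.iv i0
  rw [e0] at i3 b1 t1
  have u := i1.uniq i3
  have hdeg : d.natDegree + r.natDegree = 2 * c.natDegree := by omega
  refine ⟨hdeg, ?_⟩
  have hX := hx.iv.mul hx.iv.inv
  rw [coeff_T_mul, coeff_T_mul] at b1 t1
  simp only [AddMonoidAlgebra.coeff_add, Finsupp.add_apply, coeff_T_mul, invert_apply] at b1 t1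
  rw [show (0 : ℤ) + (r.natDegree + -r.natDegree) - c.natDegree = -c.natDegree by ring,
    sym_bot hc, show -((r.natDegree : ℤ) + -r.natDegree - r.natDegree) = r.natDegree by ring,
    coeff_toL, show (toLaurent d).coeff 0 = d.coeff 0 from coeff_toL d 0] at b1
  rw [show (d.natDegree : ℤ) + (r.natDegree + -0) - c.natDegree = c.natDegree by omega,
    sym_top hc, show -((r.natDegree : ℤ) + -0 - r.natDegree) = 0 by ring,
    coeff_toL, show (toLaurent r).coeff 0 = r.coeff 0 from coeff_toL r 0] at t1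
  have e1 : lam d * lam r = (d.coeff 0 * r.coeff r.natDegree) *
      (d.coeff d.natDegree * r.coeff 0) := by simp only [lam]; ring
  rw [e1, ← b1, ← t1]
  rcases hs with rfl | rfl
  · rw [(hX.2 (-c.natDegree - 1)).2 (by omega)]
    split_ifs with h1
    · rw [show (c.natDegree : ℤ) - 1 = x.natDegree by omega, sym_top hx]; ring
    · rw [(hX.2 (c.natDegree - 1)).2 (by omega)]; ring
  · rw [(hX.2 (c.natDegree - -1)).2 (by omega)]
    split_ifs with h1
    · rw [show -(c.natDegree : ℤ) - -1 = -x.natDegree by omega, sym_bot hx]; ring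
    · rw [(hX.2 (-c.natDegree - -1)).2 (by omega)]; ring

def Lab (p : ℤ[X]) (u v : ℕ) : Prop :=
  p.natDegree + 1 = u + 2 * v ∧
    ((u = 1 ∧ v = 0 ∧ lam p = 1) ∨ (1 ≤ v ∧ 3 * lam p = 2 ^ u * 3 ^ v))

theorem lab_step {s : ℤ} (hs : s = 1 ∨ s = -1) {x c r d : ℤ[X]} (hx : PosP x)
    (hc : PosP c) (hr : PosP r) (hd : PosP d) (dx : x.natDegree < c.natDegree)
    (h : Mu s x c r d) {u v u' v' : ℕ} (lx : Lab x u v) (lr : Lab r u' v')
    (lc : Lab c (u + u') (v + v')) (hv : 1 ≤ v + v') : Lab d (u + (u + u')) (v + (v + v')) := by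
  obtain ⟨h1, h2⟩ := mu_lam hs hx hc hr hd dx h
  obtain ⟨x1, x2⟩ := lx
  obtain ⟨r1, r2⟩ := lr
  obtain ⟨c1, c2⟩ := lc
  refine ⟨by omega, Or.inr ⟨by omega, ?_⟩⟩
  have c3 : 3 * lam c = 2 ^ (u + u') * 3 ^ (v + v') := by
    rcases c2 with c2 | c2
    · omega
    · exact c2.2
  rcases r2 with ⟨rfl, rfl, r2⟩ | ⟨r2, r3⟩
  · have x3 : 3 * lam x = 2 ^ u * 3 ^ v := by
      rcases x2 with x2 | x2
      · omega
      · exact x2.2
    rw [if_pos (by omega), r2] at h2
    have : (3 : ℤ) * (3 * lam d) = 3 * (2 ^ (u + (u + 1)) * 3 ^ (v + (v + 0))) := by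
      have e : (3 : ℤ) * (3 * lam d) = (3 * lam c) * (3 * lam c + 3 * lam x) := by
        linear_combination 9 * h2
      rw [e, c3, x3]; ring
    exact mul_left_cancel₀ (by norm_num) this
  · rw [if_neg (by omega)] at h2
    have : (3 * lam d) * (2 ^ u' * 3 ^ v') =
        (2 ^ (u + (u + u')) * 3 ^ (v + (v + v'))) * (2 ^ u' * 3 ^ v') := by
      have e : (3 * lam d) * (3 * lam r) = (3 * lam c) * (3 * lam c) := by
        linear_combination 9 * h2
      rw [← r3, e, c3, r3]; ring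
    exact mul_right_cancel₀ (by positivity) this

theorem pow_inj {u v u' v' : ℕ} (h : (2 : ℤ) ^ u * 3 ^ v = 2 ^ u' * 3 ^ v') : u = u' ∧ v = v' := by
  have h1 : 2 ^ u * 3 ^ v = 2 ^ u' * 3 ^ v' := by exact_mod_cast h
  have h2 := congrArg (fun n => n.factorization 2) h1
  have h3 := congrArg (fun n => n.factorization 3) h1
  simp [Nat.factorization_mul, Nat.factorization_pow, Nat.prime_two.factorization,
    Nat.prime_three.factorization] at h2 h3
  exact ⟨h2, h3⟩

def F : List Bool → (ℕ × ℕ) × (ℕ × ℕ)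
  | [] => ((1, 0), (0, 1))
  | true :: w => ((F w).1, (F w).1 + (F w).2)
  | false :: w => ((F w).2, (F w).1 + (F w).2)

theorem F_inv (w : List Bool) :
    (((F w).1.1 : ℤ) * (F w).2.2 - (F w).1.2 * (F w).2.1 = 1 ∨
      ((F w).1.1 : ℤ) * (F w).2.2 - (F w).1.2 * (F w).2.1 = -1) ∧
    (F w).1.1 + 2 * (F w).1.2 < (F w).2.1 + 2 * (F w).2.2 ∧ 0 < (F w).1.1 + 2 * (F w).1.2 ∧
    1 ≤ (F w).1.1 + (F w).2.1 ∧ 1 ≤ (F w).2.2 := by
  induction w with
  | nil => simp [F]
  | cons t w ih =>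
    obtain ⟨h1, h2, h3, h4, h5⟩ := ih
    cases t
    · simp only [F, Prod.fst_add, Prod.snd_add]
      refine ⟨?_, by omega, by omega, by omega, by omega⟩
      push_cast
      rcases h1 with h1 | h1
      · right; linear_combination -h1
      · left; linear_combination -h1
    · simp only [F, Prod.fst_add, Prod.snd_add]
      refine ⟨?_, by omega, by omega, by omega, by omega⟩
      push_cast
      rcases h1 with h1 | h1
      · left; linear_combination h1
      · right; linear_combination h1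

theorem farey {a1 a2 b1 b2 x1 x2 y1 y2 : ℤ} (e1 : a1 + b1 = x1 + y1) (e2 : a2 + b2 = x2 + y2)
    (h1 : a1 * b2 - a2 * b1 = 1 ∨ a1 * b2 - a2 * b1 = -1)
    (h2 : x1 * y2 - x2 * y1 = 1 ∨ x1 * y2 - x2 * y1 = -1)
    (l1 : a1 + 2 * a2 < b1 + 2 * b2) (l2 : x1 + 2 * x2 < y1 + 2 * y2) (p1 : 0 < a1 + 2 * a2)
    (p2 : 0 < x1 + 2 * x2) : a1 = x1 ∧ a2 = x2 := by
  obtain rfl : y1 = a1 + b1 - x1 := by omega
  obtain rfl : y2 = a2 + b2 - x2 := by omega
  have key : ∀ t : ℤ, (a1 - x1 = t * (a1 + b1) ∧ a2 - x2 = t * (a2 + b2) → a1 = x1 ∧ a2 = x2) ∧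
      ¬ (a1 + x1 = t * (a1 + b1) ∧ a2 + x2 = t * (a2 + b2)) := by
    intro t
    refine ⟨fun ⟨k1, k2⟩ => ?_, fun ⟨k1, k2⟩ => ?_⟩
    · have : t = 0 := by
        by_contra ht
        rcases lt_or_gt_of_ne ht with ht | ht <;> nlinarith
      subst this
      omega
    · rcases le_or_gt t 0 with ht | ht <;> nlinarith
  rcases h1 with h1 | h1 <;> rcases h2 with h2 | h2
  · refine (key (a2 * x1 - a1 * x2)).1 ⟨?_, ?_⟩
    · linear_combination x1 * h1 - a1 * h2
    · linear_combination x2 * h1 - a2 * h2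
  · refine absurd ⟨?_, ?_⟩ (key (a1 * x2 - a2 * x1)).2
    · linear_combination (-x1) * h1 + a1 * h2
    · linear_combination (-x2) * h1 + a2 * h2
  · refine absurd ⟨?_, ?_⟩ (key (a2 * x1 - a1 * x2)).2
    · linear_combination x1 * h1 - a1 * h2
    · linear_combination x2 * h1 - a2 * h2
  · refine (key (a1 * x2 - a2 * x1)).1 ⟨?_, ?_⟩
    · linear_combination (-x1) * h1 + a1 * h2
    · linear_combination (-x2) * h1 + a2 * h2

theorem F_eq {w w' : List Bool} (h : (F w).1 + (F w).2 = (F w').1 + (F w').2) : F w = F w' := by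
  obtain ⟨h1, h2, h3, -, -⟩ := F_inv w
  obtain ⟨k1, k2, k3, -, -⟩ := F_inv w'
  have e1 := congrArg Prod.fst h
  have e2 := congrArg Prod.snd h
  simp only [Prod.fst_add, Prod.snd_add] at e1 e2
  have := farey (by omega) (by omega) h1 k1 (by omega) (by omega) (by omega) (by omega)
  ext <;> omega

theorem F_inj (w : List Bool) : ∀ w', F w = F w' → w = w' := by
  induction w with
  | nil =>
    intro w' h
    rcases w' with _ | ⟨t, w'⟩
    · rfl
    · have := F_inv w'
      have e := congrArg (fun p => p.2.1) h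
      cases t <;> simp only [F, Prod.fst_add] at e <;> omega
  | cons t w ih =>
    intro w' h
    rcases w' with _ | ⟨t', w'⟩
    · have := F_inv w
      have e := congrArg (fun p => p.2.1) h
      cases t <;> simp only [F, Prod.fst_add] at e <;> omega
    · have e : (F w).1 + (F w).2 = (F w').1 + (F w').2 := by
        have e := congrArg Prod.snd h
        cases t <;> cases t' <;> exact e
      have e' := ih w' (F_eq e)
      subst e'
      have := F_inv w
      have e1 := congrArg (fun p => p.1.1) h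
      have e2 := congrArg (fun p => p.1.2) h
      cases t <;> cases t' <;> simp only [F] at e1 e2 <;> first | rfl | omega

def NJ (w : List Bool) (a b c : ℤ[X]) (s : ℤ) : Prop :=
  NI a b c s ∧ Lab a (F w).1.1 (F w).1.2 ∧ Lab b (F w).2.1 (F w).2.2 ∧
    Lab c ((F w).1.1 + (F w).2.1) ((F w).1.2 + (F w).2.2)

theorem NJ.left {w : List Bool} {a b c : ℤ[X]} {s : ℤ} (h : NJ w a b c s) :
    ∃ d, Mu s a c b d ∧ NJ (true :: w) a c d s := by
  obtain ⟨h, la, lb, lc⟩ := h
  obtain ⟨d, h1, h2⟩ := h.left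
  refine ⟨d, h1, h2, la, lc, ?_⟩
  obtain ⟨_, _, _, -, -, hs, pa, pb, pc, da, -⟩ := h
  obtain ⟨-, -, -, -, -, -, -, -, pd, -⟩ := h2
  have := F_inv w
  exact lab_step (by tauto) pa pc pb pd da h1 la lb lc (by omega)

theorem NJ.right {w : List Bool} {a b c : ℤ[X]} {s : ℤ} (h : NJ w a b c s) :
    ∃ d, Mu (-s) b c a d ∧ NJ (false :: w) b c d (-s) := by
  obtain ⟨h, la, lb, lc⟩ := h
  obtain ⟨d, h1, h2⟩ := h.right
  refine ⟨d, h1, h2, lb, lc, ?_⟩
  obtain ⟨_, _, _, -, -, hs, pa, pb, pc, -, db⟩ := h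
  obtain ⟨-, -, -, -, -, -, -, -, pd, -⟩ := h2
  have := F_inv w
  have hs' : -s = 1 ∨ -s = -1 := by omega
  have := lab_step hs' pb pc pa pd db h1 lb la (by rwa [add_comm, add_comm (F w).2.2]) (by omega)
  simp only [F, Prod.fst_add, Prod.snd_add]
  rwa [add_comm (F w).1.1, add_comm (F w).1.2]

theorem nj0 : NJ [] 1 (1 + X) (1 + 2 * X + 2 * X ^ 2) 1 := by
  have d1 : (1 + X : ℤ[X]).natDegree = 1 := by compute_degree!
  have d2 : (1 + 2 * X + 2 * X ^ 2 : ℤ[X]).natDegree = 2 := by compute_degree!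
  refine ⟨ni0, ?_, ?_, ?_⟩
  · simp [Lab, F, lam]
  · simp [Lab, F, lam, d1, coeff_one, coeff_X]
  · simp [Lab, F, lam, d2, coeff_one, coeff_X]

theorem NJ.inj {w w' : List Bool} {a b c a' b' : ℤ[X]} {s s' : ℤ} (h : NJ w a b c s)
    (h' : NJ w' a' b' c s') : w = w' := by
  obtain ⟨-, -, -, -, h1⟩ := h
  obtain ⟨-, -, -, -, h2⟩ := h'
  have := F_inv w
  have := F_inv w'
  rcases h1 with h1 | h1
  · omega
  rcases h2 with h2 | h2
  · omega
  obtain ⟨e1, e2⟩ := pow_inj (h1.2.symm.trans h2.2)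
  exact F_inj _ _ (F_eq (Prod.ext e1 e2))

theorem NJ.deg {w : List Bool} {a b c : ℤ[X]} {s : ℤ} (h : NJ w a b c s) : 2 ≤ c.natDegree := by
  obtain ⟨-, -, -, h1, -⟩ := h
  have := F_inv w
  omega

end Pool.Agent.H.MP_6870a6_co
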